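import Pool.Agent.H174.GP.StA

/-!
# Task GP EGn (helper571 for helper174): necessity in the Erdős–Gallai theorem
-/

set_option autoImplicit false

open Finset

namespace Pool.Agent.H571.GP174

theorem gp_egn : Pool.Agent.H174.GP.S_EGn := by
  classical
  rintro n d ⟨G, hG, hd⟩
  constructor
  · have h2 : ∑ i, d i = ∑ v, G.degree v := Finset.sum_congr rfl fun v _ => (hd v).symm
    rw [h2, G.sum_degrees_eq_twice_card_edges]
    exact even_two_mul _
  · intro k hk
    obtain ⟨A, hA⟩ : ∃ A : Finset (Fin n), A = univ.filter (fun i : Fin n => (i : ℕ) < k) :=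
      ⟨_, rfl⟩
    obtain ⟨B, hB⟩ : ∃ B : Finset (Fin n), B = univ.filter (fun i : Fin n => k ≤ (i : ℕ)) :=
      ⟨_, rfl⟩
    rw [← hA, ← hB]
    have hcard : A.card ≤ k := by
      have h1 : A.card ≤ (Finset.range k).card :=
        Finset.card_le_card_of_injOn (fun i : Fin n => (i : ℕ))
          (fun i hi => by
            have hi' : i ∈ A := hi
            rw [hA, Finset.mem_filter] at hi'
            exact Finset.mem_coe.2 (Finset.mem_range.2 hi'.2))
          (fun i _ j _ h => Fin.ext h)
      rwa [Finset.card_range] at h1
    have hdeg : ∀ i, d i = (A.filter (fun j => G.Adj i j)).card +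
        (B.filter (fun j => G.Adj i j)).card := by
      intro i
      rw [← hd i, ← SimpleGraph.card_neighborFinset_eq_degree, ← Finset.card_union_of_disjoint]
      · congr 1
        ext j
        rw [SimpleGraph.mem_neighborFinset, Finset.mem_union, Finset.mem_filter, Finset.mem_filter,
          hA, hB, Finset.mem_filter, Finset.mem_filter]
        constructor
        · intro h
          rcases lt_or_ge (j : ℕ) k with h3 | h3
          · exact Or.inl ⟨⟨Finset.mem_univ _, h3⟩, h⟩
          · exact Or.inr ⟨⟨Finset.mem_univ _, h3⟩, h⟩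
        · rintro (h | h)
          · exact h.2
          · exact h.2
      · rw [Finset.disjoint_left]
        intro j hj hj'
        rw [Finset.mem_filter, hA, Finset.mem_filter] at hj
        rw [Finset.mem_filter, hB, Finset.mem_filter] at hj'
        exact absurd hj.1.2 (not_lt.2 hj'.1.2)
    have h1 : ∑ i ∈ A, d i = ∑ i ∈ A, (A.filter (fun j => G.Adj i j)).card +
        ∑ i ∈ A, (B.filter (fun j => G.Adj i j)).card := by
      rw [← Finset.sum_add_distrib]
      exact Finset.sum_congr rfl fun i _ => hdeg i
    have h2 : ∑ i ∈ A, (A.filter (fun j => G.Adj i j)).card ≤ k * (k - 1) := by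
      have h3 : ∀ i ∈ A, (A.filter (fun j => G.Adj i j)).card ≤ k - 1 := by
        intro i hi
        have h4 : A.filter (fun j => G.Adj i j) ⊆ A.erase i := by
          intro j hj
          rw [Finset.mem_filter] at hj
          exact Finset.mem_erase.2 ⟨fun h => G.loopless.irrefl i (h ▸ hj.2), hj.1⟩
        refine (Finset.card_le_card h4).trans ?_
        rw [Finset.card_erase_of_mem hi]
        omega
      calc ∑ i ∈ A, (A.filter (fun j => G.Adj i j)).card ≤ ∑ _i ∈ A, (k - 1) :=
            Finset.sum_le_sum h3
        _ = A.card * (k - 1) := by rw [Finset.sum_const, smul_eq_mul]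
        _ ≤ k * (k - 1) := Nat.mul_le_mul_right _ hcard
    have h3 : ∑ i ∈ A, (B.filter (fun j => G.Adj i j)).card ≤ ∑ i ∈ B, min (d i) k := by
      have h4 : ∑ i ∈ A, (B.filter (fun j => G.Adj i j)).card =
          ∑ j ∈ B, (A.filter (fun i => G.Adj j i)).card := by
        simp only [Finset.card_filter]
        rw [Finset.sum_comm]
        refine Finset.sum_congr rfl fun j _ => Finset.sum_congr rfl fun i _ => ?_
        simp only [G.adj_comm i j]
      rw [h4]
      refine Finset.sum_le_sum fun j _ => le_min ?_ ?_
      · rw [hdeg j]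
        exact Nat.le_add_right _ _
      · exact (Finset.card_filter_le _ _).trans hcard
    rw [h1]
    exact Nat.add_le_add h2 h3

end Pool.Agent.H571.GP174
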